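import Pool.Agent.V11219.PerGrowMain

/-!
# Periods of almost all fibres: all relations of slowly growing degree over slowly growing fields

Let `h_i`, `1 ≤ i ≤ k`, be families of G-functions over `ℚ` (with the conditions of Siegel and
Galochkin, regular singular with rational exponents at `0`) and let `P_i(x)` be square matrices whose
entries are polynomials with complex coefficients in `log x` and in the functions `h_{i,l}(x)`: the
period matrices of `⨁_j H^1(A_{ij,x})` for families of abelian varieties `A_{ij}`, `1 ≤ j ≤ m_i`,
over an open part of the line, near a rational point which may be a point of degeneration. The family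
of the problem is the product of the families `∏_j A_{ij}` over the product `S` of `k` lines, with the
period matrix `P(s) = P_1(s_1) ⊕ … ⊕ P_k(s_k)`. Let `Gal(P_i)` be the group of the matrices `g` such that
`P_i` and `g P_i` satisfy the same polynomial relations over `ℂ(x)`: the Zariski closure of the
monodromy group, if `P_i` is a fundamental matrix of the Gauss-Manin system.

**Local monodromy.** `Gal(P_i)` is block diagonal, respects the polarisations of the pieces up to
characters, acts strongly irreducibly on the pieces, and no two pieces are isomorphic up to scalars.
For every piece there is an element `g` of `Gal(P_i)`, with `(g - 1) ^ 2 = 0` (the local monodromy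
around a point of semistable reduction), such that the rank of `g - 1` on the piece and the
multiplicities of the nonzero eigenvalues of the `(g - 1) (g' - 1)`, for other elements `g'` of this
type, are coprime, or contain the number two (or the conjugates of some `g` act irreducibly on the
piece and the defects of all elements together are coprime). Nothing is supposed about the action of
`g` on the other pieces.

**The degree-`d` statement over `K`** at the point `s` (`DegreeStatement`): let the polarisations `B_i`
(Betti) and `Q_i` (de Rham, at the point `s`) have entries in `K`, and let the period matrices satisfy
the Riemann relations `P_i Q_i P_i^t = (2πi)^(w_ij) B_i` on the pieces. Then every polynomial of degree at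
most `d` over `K`, without any bound for its height, which vanishes at `P(s)` vanishes at all points of
the torsor of all `X_1 ⊕ … ⊕ X_k` with `X_i Q_i X_i^t = z^(w_ij) B_i` on the pieces, `z ≠ 0`. The torsor
contains the fibre `B_{P,s}`, as the Riemann relations hold identically on the family.

**Theorem.** There is a monotone function `δ : ℕ → ℕ` with limit infinity, which depends only on the
functions `h_i` (and the sizes `n_i` and the degree `e` of the entries of the `P_i` as polynomials), with the
following property. For all number fields `K` in `ℂ` and all `N` with `[K : ℚ] ≤ δ(N)` the number of the
tuples `t` of integers in `[1, N]^k` such that the degree-`δ(max t_i)` statement over `K` is **not** true at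
the point `s = (1 / t_1, …, 1 / t_k)` is at most `N^k / (δ(N) + 1)`.

So at almost all `s = (1 / t_1, …, 1 / t_k)` (natural density one), **all** polynomial relations over `K`
between the periods of degree at most `δ(max t_i) → ∞`, for every fixed `K`, and uniformly for the
number fields of degree at most `δ(N)`, belong to the ideal of `B_{P,s}`: the `ℚ̄`-Zariski closure of
`P(s)` and `B_{P,s}` can not be distinguished by relations of degree up to `δ` over fields of degree up
to `δ`. The known results are for a fixed degree and the hyperelliptic families `y² = f(x) (x - t)`.

The proof uses the linear algebra of quadratic unipotent elements for the group `Gal(P_i)` (see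
`MP_cbf1af_ag.LocalMonodromyRelations`), the theorem `Pool.Agent.Y120.R.gx` of helper120 (outside
of the exceptional set all relations of degree at most `d` are inherited by the orbits), with its
uniformity in the number field, and the choice of a slowly growing function.
-/

set_option autoImplicit false

open Filter

namespace Pool.Agent.Results.MP_5591bc_ag.GrowingDegree

open Pool.Agent.V11219.Per Pool.Agent.V11219.Per.Deg

/-- **The theorem.** -/
theorem result (k e : ℕ) (ρ n : Fin k → ℕ) (T : Fin k → Polynomial ℤ)
    (A : ∀ i, Fin (ρ i) → Fin (ρ i) → Polynomial ℤ) (h : ∀ i, Fin (ρ i) → PowerSeries ℚ)
    (hG : ∀ i, GFamily (T i) (A i) (h i)) :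
    ∃ δ : ℕ → ℕ, Monotone δ ∧ Tendsto δ atTop atTop ∧
      ∀ P : ∀ i, Fin (n i) → Fin (n i) → MvPolynomial (Option (Fin (ρ i))) ℂ,
      (∀ i a b, (P i a b).totalDegree ≤ e) →
      ∀ K : Subfield ℂ, FiniteDimensional ℚ K → ∀ N : ℕ, Module.finrank ℚ K ≤ δ N →
      (((exceptional K δ h P N).ncard : ℕ) : ℝ) ≤ (N : ℝ) ^ k / (δ N + 1) :=
  grow_main k e ρ n T A h hG

end Pool.Agent.Results.MP_5591bc_ag.GrowingDegree
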