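import Pool.Agent.Helper264.NT.NearQ

/-!
# Near almost every tuple ALL relations between the periods of several algebraic fibres come from the ideal of the product of
the period torsors

A family (`Family X ι`) is an algebraic connection `c ∂_i Y = Y B_i` over the affine space with coordinates `x_i`, `i ∈ X`,
with an invertible matrix `Y` of analytic solutions on a nonempty connected open set `U`: for example `Y` is a branch of the
period matrix `P` of the fibres of any family of varieties over an open part `S` of the affine space. `galois` is the group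
of the constant matrices `g` such that all polynomial relations over `ℂ[x]` between the entries of `Y` are relations between
the entries of `g Y`. We assume that it is connected, which for a family of varieties holds after a finite covering of `S`.

Let `F_j`, `j` in a finite set, be such families, with bases `S_j` and period matrices `P_j` (there may be repetitions: several
fibres of one family). The periods of the fibres `X_{1,s_1} ⊕ X_{2,s_2} ⊕ …` form the matrices `P_j(s_j)`, and the variety
`B_P` of the product family over `∏ S_j` is the Zariski closure over the algebraic numbers of the graph of `(P_j(s_j))_j`: its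
ideal consists of the polynomials `R` in the entries of all the matrices, with coefficients in `ℚ̄[x]`, `x ∈ ∏ S_j`, which
vanish at `(x, (Y_j(x_j))_j)` for all `x`. The relations at a tuple `s` of points which hold on the fibre `B_{P,s}` are thus the
specializations `R (s, ·)` of these `R`, at least.

Let `d = ∑ dim S_j`. There is a set `E` in `ℂ^d` of Hausdorff dimension at most `2 d - 2` such that near every tuple
`z` outside of `E` there are no exceptional tuples: for all `w > 0` (arbitrarily small), all number fields `K` and all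
`δ = k`, for large `T`, at ALL tuples `s` with coordinates in `K` of height at most `T` at distance at most `T ^ (-w)` from `z`
all relations over `K` of partial degrees at most `k` and of height at most `T ^ k` between the entries of all the `P_j(s_j)`
hold on the fibre `B_{P,s}`, and are even specializations of elements of the ideal of `B_P` of the same partial degrees. For
real tuples `z` the same holds outside of a set in `ℝ^d` of dimension at most `d - 1`.
-/

set_option autoImplicit false

open Filter NumberField
open scoped ENNReal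

namespace Pool.Agent.Results.MP_5591bc_ag.NearEveryPoint

/-- an algebraic connection on the affine space `ℂ ^ X` with a fundamental matrix `Y` of analytic solutions on `U` -/
structure Family (X ι : Type) [Fintype X] [DecidableEq X] [Fintype ι] [DecidableEq ι] where
  /-- a nonempty connected open set -/
  U : Set (X → ℂ)
  isOpen : IsOpen U
  connected : IsPreconnected U
  nonempty : U.Nonempty
  /-- the matrix of the solutions (periods) -/
  Y : (X → ℂ) → Matrix ι ι ℂ
  analytic : ∀ a b, AnalyticOnNhd ℂ (fun x => Y x a b) U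
  det_ne : ∀ x ∈ U, (Y x).det ≠ 0
  /-- the common denominator of the connection -/
  c : MvPolynomial X ℂ
  c_ne : c ≠ 0
  /-- the numerators -/
  B : X → Matrix ι ι (MvPolynomial X ℂ)
  /-- `c ∂_i Y = Y B_i` -/
  eqn : ∀ x ∈ U, ∀ i a b, MvPolynomial.eval x c * fderiv ℂ (fun x => Y x a b) x (Pi.single i 1) =
    ∑ e, Y x a e * MvPolynomial.eval x (B i e b)

section
variable {X ι : Type} [Fintype X] [DecidableEq X] [Fintype ι] [DecidableEq ι]

/-- all polynomial relations between the entries of `Y` over `ℂ[x]` are relations between the entries of `g Y` -/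
def Preserves (F : Family X ι) (g : Matrix ι ι ℂ) : Prop :=
  ∀ p : MvPolynomial (ι × ι) (MvPolynomial X ℂ),
    (∀ x ∈ F.U, MvPolynomial.eval₂ (MvPolynomial.eval x) (fun v => F.Y x v.1 v.2) p = 0) →
    ∀ x ∈ F.U, MvPolynomial.eval₂ (MvPolynomial.eval x) (fun v => (g * F.Y x) v.1 v.2) p = 0

/-- the Galois group -/
def Family.galois (F : Family X ι) : Subgroup (GL ι ℂ) where
  carrier := {g | Preserves F (g : Matrix ι ι ℂ)}
  mul_mem' := fun ha hb => (Pool.Agent.V11273.PV.Gal F.U F.Y).mul_mem' ha hb
  one_mem' := (Pool.Agent.V11273.PV.Gal F.U F.Y).one_mem'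
  inv_mem' := fun ha => (Pool.Agent.V11273.PV.Gal F.U F.Y).inv_mem' ha

/-- subgroups of finite index which are defined by polynomial equations are the whole group -/
def Connected (G : Subgroup (GL ι ℂ)) : Prop :=
  ∀ H : Subgroup G, H.FiniteIndex → (∃ E : Set (MvPolynomial (ι × ι) ℂ), ∀ h : G, h ∈ H ↔
    ∀ e ∈ E, MvPolynomial.eval (fun v => ((h : GL ι ℂ) : Matrix ι ι ℂ) v.1 v.2) e = 0) → H = ⊤

end

/-- the field of algebraic numbers -/
abbrev Qbar : Type := algebraicClosure ℚ ℂ

/-- the value at `x` of a polynomial in the coordinates over the algebraic numbers -/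
noncomputable def atP {X : Type} (x : X → ℂ) : MvPolynomial X Qbar →+* ℂ :=
  (MvPolynomial.aeval x : MvPolynomial X Qbar →ₐ[Qbar] ℂ).toRingHom

/-- quotients of two integers of `K`, all conjugates of which are at most `T` -/
def HeightLe (K : Type) [Field K] [NumberField K] (T : ℝ) (x : K) : Prop :=
  ∃ a b : 𝓞 K, b ≠ 0 ∧ house (a : K) ≤ T ∧ house (b : K) ≤ T ∧ x = a / b

section
variable {κ : Type} [Fintype κ] [DecidableEq κ] {X ι : κ → Type} [∀ j, Fintype (X j)] [∀ j, DecidableEq (X j)]
  [∀ j, Fintype (ι j)] [∀ j, DecidableEq (ι j)]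

/-- the tuples of points of the domains of the families -/
def domain (F : ∀ j, Family (X j) (ι j)) : Set ((Σ j, X j) → ℂ) := {z | ∀ j, (fun i => z ⟨j, i⟩) ∈ (F j).U}

/-- the entry `v.2` of the matrix of the family number `v.1` at the component of the tuple `z` of this number -/
def entry (F : ∀ j, Family (X j) (ι j)) (z : (Σ j, X j) → ℂ) (v : Σ j, ι j × ι j) : ℂ :=
  (F v.1).Y (fun i => z ⟨v.1, i⟩) v.2.1 v.2.2

/-- The ideal of `B_P`: the polynomials in the coordinates and the entries of all the matrices, over the algebraic numbers,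
which vanish on the graph. -/
def InIdeal (F : ∀ j, Family (X j) (ι j)) (R : MvPolynomial (Σ j, ι j × ι j) (MvPolynomial (Σ j, X j) Qbar)) : Prop :=
  ∀ x ∈ domain F, MvPolynomial.eval₂ (atP x) (entry F x) R = 0

/-- `P` is the specialization at `x₀` of an element of the ideal of `B_P`, of partial degrees at most `k`: a relation which
holds on the fibre `B_{P,x₀}` -/
def HoldsOnFibre (F : ∀ j, Family (X j) (ι j)) (k : ℕ) (x₀ : (Σ j, X j) → ℂ) (P : MvPolynomial (Σ j, ι j × ι j) ℂ) : Prop :=
  ∃ R : MvPolynomial (Σ j, ι j × ι j) (MvPolynomial (Σ j, X j) Qbar), (∀ v, R.degreeOf v ≤ k) ∧ InIdeal F R ∧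
    R.map (atP x₀) = P

/-- At all tuples `s` with coordinates in the number field `K` (embedded into `ℂ` by `io`) of height at most `T` and with
`|s i - z i| ≤ T ^ (-w)` for all `i`, every polynomial relation `P` between the entries of all the matrices `Y_j(s_j)` over the
integers of `K`, of partial degrees at most `k`, all conjugates of its coefficients being at most `T ^ k`, holds on the fibre
`B_{P,s}`. -/
def GoodNear (F : ∀ j, Family (X j) (ι j)) (z : (Σ j, X j) → ℂ) (w : ℝ) (K : Type) [Field K] [NumberField K]
    (io : K →+* ℂ) (k : ℕ) (T : ℝ) : Prop :=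
  ∀ s : (Σ j, X j) → K, (∀ i, HeightLe K T (s i)) → (∀ i, ‖io (s i) - z i‖ ≤ T ^ (-w)) →
    ∀ P : MvPolynomial (Σ j, ι j × ι j) (𝓞 K), (∀ v, P.degreeOf v ≤ k) →
      (∀ m (φ : K →+* ℂ), ‖φ ((P.coeff m : 𝓞 K) : K)‖ ≤ T ^ (k : ℝ)) →
      MvPolynomial.eval₂ (io.comp (algebraMap (𝓞 K) K)) (entry F fun j => io (s j)) P = 0 →
      HoldsOnFibre F k (fun j => io (s j)) (P.map (io.comp (algebraMap (𝓞 K) K)))

/-- Let `F_j`, `j` in a finite set, be families with connected Galois groups over open parts of affine spaces, `d ≥ 1` the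
dimension of the product of the bases.
(1) There is a set `E` in `ℂ ^ d` of Hausdorff dimension at most `2 (d - 1)` such that for all `z` in the domain outside of
`E`, all `w > 0`, all number fields `K ⊂ ℂ` and all `k`, the property `GoodNear F z w K k T` holds for all large `T`.
(2) There is a set `E` in `ℝ ^ d` of Hausdorff dimension at most `d - 1` such that for all real `z` in the domain outside of
`E`, all `w > 0`, all number fields `K ⊂ ℝ` and all `k`, the property `GoodNear F z w K k T` holds for all large `T`. -/
theorem result [Nonempty (Σ j, X j)] (F : ∀ j, Family (X j) (ι j)) (hF : ∀ j, Connected (F j).galois) :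
    (∃ E : Set ((Σ j, X j) → ℂ), dimH E ≤ ((2 * (Fintype.card (Σ j, X j) - 1) : ℕ) : ℝ≥0∞) ∧
      ∀ z ∈ domain F, z ∉ E → ∀ w : ℝ, 0 < w → ∀ (K : IntermediateField ℚ ℂ) [NumberField K] (k : ℕ),
        ∀ᶠ T : ℝ in atTop, GoodNear F z w K (algebraMap K ℂ) k T) ∧
    ∃ E : Set ((Σ j, X j) → ℝ), dimH E ≤ ((Fintype.card (Σ j, X j) - 1 : ℕ) : ℝ≥0∞) ∧
      ∀ z : (Σ j, X j) → ℝ, (fun i => (z i : ℂ)) ∈ domain F → z ∉ E → ∀ w : ℝ, 0 < w →
      ∀ (K : IntermediateField ℚ ℝ) [NumberField K] (k : ℕ), ∀ᶠ T : ℝ in atTop,
        GoodNear F (fun i => (z i : ℂ)) w K (Complex.ofRealHom.comp (algebraMap K ℝ)) k T := by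
  classical
  have hreg := Pool.Agent.V11273.PV.reg_prod (U := fun j => (F j).U) (Y := fun j => (F j).Y) (fun j => (F j).connected)
    (fun j => (F j).isOpen) (fun j => (F j).nonempty) (fun j => (F j).analytic) (fun j => (F j).det_ne)
    (fun j => (F j).c_ne) (fun j => (F j).eqn) hF
  have hreg' : Pool.Agent.Y890.MV.RegularM (Pool.Agent.V11273.PV.UU fun j => (F j).U)
      (Pool.Agent.V11273.PV.fE fun j => (F j).Y) := by
    have h1 := Pool.Agent.V11273.PV.RegularM_comp hreg
      (fun s : Σ j, ι j × ι j => (((⟨s.1, s.2.1⟩ : Σ j, ι j), (⟨s.1, s.2.2⟩ : Σ j, ι j))))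
    have h2 : (fun (s : Σ j, ι j × ι j) (z : (Σ j, X j) → ℂ) => Pool.Agent.V11273.PV.YY (fun j => (F j).Y) z
        ⟨s.1, s.2.1⟩ ⟨s.1, s.2.2⟩) = Pool.Agent.V11273.PV.fE fun j => (F j).Y := by
      funext s z
      exact Pool.Agent.V11273.PV.YY_eq z s.1 s.2.1 s.2.2
    rw [← h2]
    exact h1
  obtain ⟨⟨E, hE, h⟩, ⟨E', hE', h'⟩⟩ := Pool.Agent.Helper264.NT.near_relQ
    (f := Pool.Agent.V11273.PV.fE fun j => (F j).Y) (Pool.Agent.V11273.PV.UU_preconn fun j => (F j).connected)
    (Pool.Agent.V11273.PV.UU_open fun j => (F j).isOpen) (Pool.Agent.V11273.PV.UU_ne fun j => (F j).nonempty)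
    (Pool.Agent.V11273.PV.fE_an fun j => (F j).analytic) hreg'
  refine ⟨⟨E, hE, fun z hz hzE w hw K _ k => ?_⟩, ⟨E', hE', fun z hz hzE w hw K _ k => ?_⟩⟩
  · filter_upwards [h z hz hzE w hw K k] with T hT
    intro s hs hsz P h1 h2 h3
    by_contra h4
    exact hT s hs hsz ⟨P, h1, h2, h3, h4⟩
  · filter_upwards [h' z hz hzE w hw K k] with T hT
    intro s hs hsz P h1 h2 h3
    by_contra h4
    exact hT s hs hsz ⟨P, h1, h2, h3, h4⟩

end

end Pool.Agent.Results.MP_5591bc_ag.NearEveryPoint
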