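import Pool.Agent.Results.MP_5591bc_ag.AlgebraicFibres
import Pool.Agent.V11300.PA.Rat

/-!
# Periods of algebraic fibres of products of Legendre families over ALL rational parameters near almost every `p`-adic point

The fibres of the family `E_{s_1} × ⋯ × E_{s_n}`, `E_s : y² = x(x-1)(x-s)`, over the algebraic points `s_j = φ_j(q_j)`, where
`φ_j` is a local inverse of a polynomial `ψ_j` over `ℚ` on `[a_j, b_j]` and `q_j` is rational. Let `p` be a prime number and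
`κ > 0`. For all `α ∈ ℚ_p ^ n` outside of a set of Hausdorff dimension at most `κ (2 n - 2 / ((d + 1) ^ (3 n + 1) + 1))` and all
`A` there are `B`, `m₀` such that for all `m ≥ m₀`, with `T = p ^ (κ m)`, and ALL the rational `q_j` in `[a_j, b_j]` with
denominators at most `T` and `|q_j - α_j|_p ≤ p ^ (-m)`: every nonzero integral polynomial with coefficients at most `T ^ A`,
of degree at most `d` in each variable, has an absolute value larger than `T ^ (-B)` at the `3 n + 1` numbers `π`, `K(s_j)`,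
`E(s_j)`, `K(1 - s_j)`. The definitions `periods`, `Exceptional` are those of the starting file `AlgebraicFibres`.
-/

set_option autoImplicit false

open Filter Topology

namespace Pool.Agent.Results.MP_5591bc_ag.PadicNeighbourhoods

open AlgebraicFibres (Exceptional periods)

/-- **Theorem.** -/
theorem result (n d : ℕ) (hn : 1 ≤ n) (φ : Fin n → ℝ → ℝ) (ψ : Fin n → Polynomial ℚ) (a b : Fin n → ℝ)
    (hab : ∀ j, a j < b j) (hφ : ∀ j, AnalyticOnNhd ℝ (φ j) (Set.Icc (a j) (b j)))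
    (h01 : ∀ j t, a j ≤ t → t ≤ b j → 0 < φ j t ∧ φ j t < 1)
    (hψ : ∀ j t, a j ≤ t → t ≤ b j → Polynomial.aeval (φ j t) (ψ j) = t)
    (p : ℕ) [Fact p.Prime] (κ : ℝ) (hκ : 0 < κ) :
    ∃ E : Set (Fin n → ℚ_[p]), dimH E ≤ ENNReal.ofReal (κ * (2 * n - 2 / (((d : ℝ) + 1) ^ (3 * n + 1) + 1))) ∧
      ∀ α : Fin n → ℚ_[p], α ∉ E → ∀ A : ℕ, ∃ (B : ℝ) (m₀ : ℕ), ∀ m : ℕ, m₀ ≤ m → ∀ q : Fin n → ℚ,
        (∀ j, a j ≤ q j ∧ q j ≤ b j ∧ ((q j).den : ℝ) ≤ (p : ℝ) ^ (κ * m)) →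
        (∀ j, ‖((q j : ℚ) : ℚ_[p]) - α j‖ ≤ (p : ℝ) ^ (-(m : ℝ))) →
        ∀ P : MvPolynomial (Option (Fin n × Fin 3)) ℤ, P ≠ 0 → (∀ x, P.degreeOf x ≤ d) →
          (∀ s, |((P.coeff s : ℤ) : ℝ)| ≤ ((p : ℝ) ^ (κ * m)) ^ (A : ℝ)) →
          ((p : ℝ) ^ (κ * m)) ^ (-B) < |MvPolynomial.aeval (periods fun j => φ j (q j)) P| := by
  obtain ⟨E, h1, h2⟩ := Pool.Agent.V11300.PA.rational_points p hn (Pool.Agent.V11300.PA.beta_nonneg d (3 * n + 1)) hκ
    (fun A B T => Exceptional n d φ a b A B T) (fun A β hA hβ => AlgebraicFibres.result n d hn φ ψ a b hab hφ h01 hψ A β hA hβ)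
  refine ⟨E, ?_, fun α hα A => ?_⟩
  · have e : (2 * n - 2 / (((d : ℝ) + 1) ^ (3 * n + 1) + 1) : ℝ) =
        2 * ((n : ℝ) - 1) + (2 - 2 / (((d : ℝ) + 1) ^ (3 * n + 1) + 1)) := by ring
    rw [e]
    exact h1
  · obtain ⟨B, m₀, h⟩ := h2 α hα A
    refine ⟨B, m₀, fun m hm q hq hd P hP0 hPd hPc => ?_⟩
    by_contra hcon
    rw [not_lt] at hcon
    exact h m hm q hd ⟨hq, P, hP0, hPd, hPc, hcon⟩

end Pool.Agent.Results.MP_5591bc_ag.PadicNeighbourhoods
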