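import Pool.Agent.Results.MP_5591bc_ag.CyclicCoverProducts
import Pool.Agent.V11286.NE.Tup
import Pool.Agent.V11286.NE.Vol

/-!
# Periods of ALL products of cyclic covers of the line in small windows around almost every direction

Let `C⁽ˡ⁾_z`, `l = 1, …, p`, be families `y ^ N = (x - z) ^ e₀ ∏_j (x - a_j) ^ (e_j)` of cyclic covers of the line with
algebraic `a_j`, as in the starting file `CyclicCoverProducts`, and let `v_1, v_2, …` tend to infinity faster than every power
(for instance `v_n = 2 ^ n`). For almost all `(α_1, …, α_p)` the following holds for all number fields `K` and all degrees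
`δ`. For all large `n` and ALL `p`-tuples of integers `m_l ≥ 2` with `|m_l - α_l v_n| ≤ v_n ^ ϑ` the fibre
`C⁽¹⁾_{1 / m_1} × … × C⁽ᵖ⁾_{1 / m_p}` over the point `s = (1 / m_1, …, 1 / m_p)` has the following property: every relation of
degree at most `δ` over `K` between the periods of all the `p` curves is the value at `s` of a relation over
`K[z_1, …, z_p]`, of degree at most `δ`, which holds identically on the graph of the period map. Hence it is in the ideal of
the fibre over `s` of the Zariski closure of the graph. The exponent `ϑ > 0` depends only on the families, on `K` and `δ`.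

The proof: by the starting result there are at most `C T ^ (p - c)` exceptional tuples in `[2, T] ^ p`; the `α` such that
one of the windows contains an exceptional tuple for infinitely many `n` are a null set by the lemma of Borel and Cantelli.
-/

set_option autoImplicit false

namespace Pool.Agent.Results.MP_5591bc_ag.WindowsOfProducts

open MeasureTheory CyclicCoverProducts

/-- the real numbers `v_n ≥ 1` tend to infinity so fast that `∑ v_n ^ (-s) < ∞` for all `s > 0`, for instance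
`v_n = 2 ^ n` -/
def Fast (v : ℕ → ℝ) : Prop := (∀ n, 1 ≤ v n) ∧ ∀ s : ℝ, 0 < s → Summable fun n : ℕ => (v n) ^ (-s)

lemma fast_two : Fast (fun n => (2 : ℝ) ^ n) := by
  refine ⟨fun n => one_le_pow₀ (by norm_num), fun s hs => ?_⟩
  have h : (fun n : ℕ => ((2 : ℝ) ^ n) ^ (-s)) = fun n => ((2 : ℝ) ^ (-s)) ^ n := by
    funext n
    rw [← Real.rpow_natCast, ← Real.rpow_mul (by norm_num), ← Real.rpow_natCast, ← Real.rpow_mul (by norm_num)]
    congr 1
    ring
  rw [h]
  exact summable_geometric_of_lt_one (by positivity) (Real.rpow_lt_one_of_one_lt_of_neg (by norm_num) (by linarith))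

/-- the number fields in `ℂ` -/
abbrev Fields : Type := {K : IntermediateField ℚ ℂ | FiniteDimensional ℚ K}

/-- **Main result.** For all `p ≥ 1` and all families there are `r(K, δ)` and `ϑ(K, δ) > 0` as follows. -/
theorem result {p : ℕ} (hp : 1 ≤ p) (F : Fin p → Family) :
    Fast (fun n => (2 : ℝ) ^ n) ∧
    ∃ r ϑ : Fields → ℕ → ℝ, (∀ K δ, 0 < r K δ ∧ (∀ l, r K δ ≤ (F l).ρ) ∧ 0 < ϑ K δ) ∧ ∀ v : ℕ → ℝ, Fast v →
      ∀ᵐ α : Fin p → ℝ, ∀ (K : Fields) (δ : ℕ), ∃ n₀ : ℕ, ∀ n : ℕ, n₀ ≤ n →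
        ∀ m : Fin p → ℕ, (∀ l, 2 ≤ m l) → (∀ l, |(m l : ℝ) - α l * v n| ≤ (v n) ^ ϑ K δ) →
          (∀ l, 1 / (m l : ℝ) < r K δ) ∧
            DegreeStatement (K : IntermediateField ℚ ℂ) (periods F) (r K δ) δ
              fun l => 1 / (m l : (K : IntermediateField ℚ ℂ)) := by
  have key : ∀ (K : Fields) (δ : ℕ), ∃ r : ℝ, 0 < r ∧ (∀ l, r ≤ (F l).ρ) ∧ ∃ c C : ℝ, 0 < c ∧ ∀ T : ℕ, 1 ≤ T →
      ((exceptions (K : IntermediateField ℚ ℂ) F r δ T).ncard : ℝ) ≤ C * (T : ℝ) ^ ((p : ℝ) - c) := by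
    rintro ⟨K, hK⟩ δ
    have hK' : FiniteDimensional ℚ K := hK
    have hKn : NumberField K := { to_charZero := inferInstance, to_finiteDimensional := hK' }
    exact CyclicCoverProducts.result F K δ
  choose r hr hrρ c C hc hC using key
  have hp0 : (0 : ℝ) < p := Nat.cast_pos.2 hp
  refine ⟨fast_two, r, fun K δ => min (c K δ) p / (2 * p), fun K δ => ⟨hr K δ, hrρ K δ,
    div_pos (lt_min (hc K δ) hp0) (by linarith)⟩, ?_⟩
  intro v hv
  have hcount : Countable Fields := Pool.Agent.V11286.NE.countable_fields.to_subtype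
  rw [ae_all_iff]
  intro K
  rw [ae_all_iff]
  intro δ
  have hck : min (c K δ) p ≤ p := min_le_right _ _
  have h1 := Pool.Agent.V11286.NE.ae_tuples {m : Fin p → ℕ | (∀ l, 2 ≤ m l) ∧
    ¬ ((∀ l, 1 / (m l : ℝ) < r K δ) ∧ DegreeStatement (K : IntermediateField ℚ ℂ) (periods F) (r K δ) δ
      fun l => 1 / (m l : (K : IntermediateField ℚ ℂ)))} (c := min (c K δ) p) (C := |C K δ|) ?_ hck hv.1 hv.2
      (θ := min (c K δ) p / (2 * p)) ?_ ?_
  · filter_upwards [h1] with α hα
    obtain ⟨n₀, hn₀⟩ := hα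
    refine ⟨n₀, fun n hn m hm2 hm => ?_⟩
    by_contra hcon
    exact hn₀ n hn m hm ⟨hm2, hcon⟩
  · intro T hT
    have hT1 : (1 : ℝ) ≤ T := by exact_mod_cast hT
    have h2 : {t : Fin p → ℕ | (∀ i, t i ≤ T) ∧ t ∈ {m : Fin p → ℕ | (∀ l, 2 ≤ m l) ∧
        ¬ ((∀ l, 1 / (m l : ℝ) < r K δ) ∧ DegreeStatement (K : IntermediateField ℚ ℂ) (periods F) (r K δ) δ
          fun l => 1 / (m l : (K : IntermediateField ℚ ℂ)))}} = exceptions (K : IntermediateField ℚ ℂ) F (r K δ) δ T := by
      ext t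
      constructor
      · rintro ⟨h3, h4, h5⟩
        exact ⟨fun l => ⟨h4 l, h3 l⟩, h5⟩
      · rintro ⟨h3, h5⟩
        exact ⟨fun l => (h3 l).2, fun l => (h3 l).1, h5⟩
    rw [h2]
    refine (hC K δ T hT).trans ?_
    calc C K δ * (T : ℝ) ^ ((p : ℝ) - c K δ) ≤ |C K δ| * (T : ℝ) ^ ((p : ℝ) - c K δ) :=
          mul_le_mul_of_nonneg_right (le_abs_self _) (Real.rpow_nonneg (by linarith) _)
      _ ≤ _ := mul_le_mul_of_nonneg_left (Real.rpow_le_rpow_of_exponent_le hT1
          (by linarith [min_le_left (c K δ) (p : ℝ)])) (abs_nonneg _)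
  · rw [div_le_one (by linarith)]
    linarith
  · have h0 : (p : ℝ) * (min (c K δ) p / (2 * p)) = min (c K δ) p / 2 := by
      field_simp
    rw [h0]
    have := lt_min (hc K δ) hp0
    linarith

end Pool.Agent.Results.MP_5591bc_ag.WindowsOfProducts
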